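import Pool.Agent.MP_e620c0_nt.Mass
import Pool.Agent.MP_e620c0_nt.Main
import Pool.Agent.MP_e620c0_nt.Ana
import Pool.Agent.MP_e620c0_nt.Sieve

set_option autoImplicit false

open Filter Pool.Agent.Emirp

namespace Pool.Agent.Results.MP_e620c0_nt.AlmostPrimeReversal

/-- For all large `L` there are at least `c 10^L / L^2` primes with `L` decimal digits whose
reversal is a different number with at most 15 prime factors, counted with multiplicity. -/
theorem result : ∃ c : ℝ, 0 < c ∧ ∀ᶠ L : ℕ in atTop,
    c * 10 ^ L / (L : ℝ) ^ 2 ≤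
      (((Finset.Ico (10 ^ (L - 1)) (10 ^ L)).filter (fun p : ℕ => p.Prime ∧
        Naccb31f3.reverse10 p ≠ p ∧
        ArithmeticFunction.cardFactors (Naccb31f3.reverse10 p) ≤ 15)).card : ℝ) :=
  have hB2 := bil2 (core2 pair vdc ksum carry diag)
  have hV := vau (bil1 core1) hB2
  main hV (nu_stmt hB2 hV) (level (small decay) (bad decay)) (sieve abel mert gasy sel) pnt_int maj
    (mass pnt_int (mu_stmt abel mert))

end Pool.Agent.Results.MP_e620c0_nt.AlmostPrimeReversal
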