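import Pool.Agent.MP_e620c0_nt.lp.Ls
import Pool.Agent.MP_e620c0_nt.lp.Four
import Pool.Agent.MP_e620c0_nt.lp.Mid
import Pool.Agent.MP_e620c0_nt.lp.Cs
import Pool.Agent.MP_e620c0_nt.lp.Tone
import Pool.Agent.MP_e620c0_nt.lp.Gg
import Pool.Agent.MP_e620c0_nt.lp.Bt
import Pool.Agent.MP_e620c0_nt.lp.Lev
import Pool.Agent.MP_e620c0_nt.lp.Mj
import Pool.Agent.MP_e620c0_nt.lp.Ms
import Pool.Agent.MP_e620c0_nt.lp.Sm

set_option autoImplicit false

open Filter Pool.Agent.Emirp.LP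

namespace Pool.Agent.Results.MP_e620c0_nt.LargePrimeFactor

/-- For all large `L` there are at least `c 10^L / L` primes with `L` decimal digits whose
reversal is a different number with a prime factor `q` such that `q^4 > 10^L`. -/
theorem result : ∃ c : ℝ, 0 < c ∧ ∀ᶠ L : ℕ in atTop,
    c * 10 ^ L / (L : ℝ) ≤
      (Set.ncard {p : ℕ | 10 ^ (L - 1) ≤ p ∧ p < 10 ^ L ∧ p.Prime ∧ Naccb31f3.reverse10 p ≠ p ∧
        ∃ q : ℕ, q.Prime ∧ q ∣ Naccb31f3.reverse10 p ∧ 10 ^ L < q ^ 4} : ℝ) := by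
  classical
  obtain ⟨c, hc, h⟩ := mn pis (sm (lev gg (bt (tone four redu mid (cs ls split)))) mj ms num)
  refine ⟨c, hc, h.mono fun L hL => hL.trans (le_of_eq ?_)⟩
  rw [← Set.ncard_coe_finset]
  congr 2
  ext p
  simp [and_assoc]

end Pool.Agent.Results.MP_e620c0_nt.LargePrimeFactor
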